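import Pool.Agent.Q81.Maj3

open scoped MatrixOrder ComplexOrder Matrix.Norms.L2Operator
open Pool.Agent.Q81.Maj

namespace Pool.Agent.Results.MP_26c808_an.MajorizationFails

/-- For every real `p > 2` there are positive semidefinite complex `3 × 3` matrices `A, B` for which
the largest eigenvalue of `A² + |BA|^p` is smaller than the largest eigenvalue of `A² + |AB|^p`; in
particular `λ(A² + |BA|^p)` does not majorize `λ(A² + |AB|^p)`. -/
theorem result : ∀ p : ℝ, 2 < p → ∃ A B : Matrix (Fin 3) (Fin 3) ℂ,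
    A.PosSemidef ∧ B.PosSemidef ∧
    ∃ (hX : (A ^ 2 + absPow (B * A) p).IsHermitian) (hY : (A ^ 2 + absPow (A * B) p).IsHermitian),
      lam hX 0 < lam hY 0 ∧ ¬ Majorizes (lam hX) (lam hY) := by
  intro p hp
  obtain ⟨A, B, hA, hB, hX, hY, h⟩ := main hp
  refine ⟨A, B, hA, hB, hX, hY, h, ?_⟩
  rintro ⟨h1, -⟩
  have h2 := h1 1 le_rfl (by norm_num)
  have h3 : Finset.univ.filter (fun i : Fin 3 => (i : ℕ) < 1) = {0} := by decide
  rw [h3, Finset.sum_singleton, Finset.sum_singleton] at h2
  linarith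

end Pool.Agent.Results.MP_26c808_an.MajorizationFails
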